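import Pool.Agent.Helper77.SUBK.SheetK

/-!
Project SUBK, row KPAR: the parametric Subspace theorem over a Galois extension of `ℚ`.
-/

set_option autoImplicit false

namespace Pool.Agent.Helper60.SUBK

open Finset Matrix
open Pool.Agent.Helper70.SUB Pool.Agent.Helper77.SUBK

/-- an integral basis with indices in `Fin d` -/
theorem ex_ib (M : Type) [Field M] [NumberField M] :
    ∃ (d : ℕ) (ω : Module.Basis (Fin d) ℚ M), (∀ l, IsIntegral ℤ (ω l)) ∧
      ∀ z : M, IsIntegral ℤ z → ∃ X : Fin d → ℤ, z = ∑ l, (X l : M) * ω l := by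
  classical
  refine ⟨Fintype.card (Module.Free.ChooseBasisIndex ℤ (NumberField.RingOfIntegers M)),
    (NumberField.integralBasis M).reindex (Fintype.equivFin _), ?_, ?_⟩
  · intro l
    rw [Module.Basis.reindex_apply, NumberField.integralBasis_apply]
    exact NumberField.RingOfIntegers.isIntegral_coe _
  · intro z hz
    obtain ⟨x, hx⟩ : ∃ x : NumberField.RingOfIntegers M, algebraMap _ M x = z := ⟨⟨z, hz⟩, rfl⟩
    refine ⟨fun l => (NumberField.RingOfIntegers.basis M).repr x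
      ((Fintype.equivFin _).symm l), ?_⟩
    have h1 := ((NumberField.integralBasis M).reindex (Fintype.equivFin _)).sum_repr z
    refine h1.symm.trans (Finset.sum_congr rfl fun l _ => ?_)
    have h2 := NumberField.integralBasis_repr_apply M x ((Fintype.equivFin _).symm l)
    rw [Module.Basis.repr_reindex_apply, ← hx, h2, Algebra.smul_def]
    congr 1
    simp

/-- the coordinates of an integral combination of the basis -/
theorem repr_int {M : Type} [Field M] [NumberField M] {d : ℕ} (ω : Module.Basis (Fin d) ℚ M)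
    (X : Fin d → ℤ) (l : Fin d) : ω.repr (∑ l, (X l : M) * ω l) l = (X l : ℚ) := by
  have h1 : ∑ l, (X l : M) * ω l = ∑ l, (X l : ℚ) • ω l := by
    refine Finset.sum_congr rfl fun l _ => ?_
    rw [Algebra.smul_def]
    simp
  rw [h1, Module.Basis.repr_sum_self]

/-- (KPAR) the parametric Subspace theorem over `M` -/
theorem KPAR (hKMAT : ST_KMAT) (hPARM : ST_PARM) (hKTR : ST_KTR) : ST_KPAR := by
  classical
  intro M _ _ _ S P n L c M1 Q K hn hS hdet hCon hc hsum hM1 hfin hK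
  obtain ⟨d, ω, hωi, hωz⟩ := ex_ib M
  obtain ⟨N, e, f, A, K0, hK0, hA, hRt, hbd⟩ := hKMAT M S P n d ω L hS hdet hCon
  -- a bound for the basis
  set C1 : ℝ := 1 + ∑ v ∈ plc S, ∑ σ : M ≃ₐ[ℚ] M, ∑ m, P.nv v (σ (ω m)) with hC1
  have hC10 : 1 ≤ C1 := by
    have : 0 ≤ ∑ v ∈ plc S, ∑ σ : M ≃ₐ[ℚ] M, ∑ m, P.nv v (σ (ω m)) :=
      Finset.sum_nonneg fun v _ => Finset.sum_nonneg fun σ _ => Finset.sum_nonneg fun m _ =>
        P.nn _ _
    linarith
  have hC1b : ∀ v ∈ plc S, ∀ (σ : M ≃ₐ[ℚ] M) (m : Fin d), P.nv v (σ (ω m)) ≤ C1 := by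
    intro v hv σ m
    have h1 : P.nv v (σ (ω m)) ≤ ∑ m, P.nv v (σ (ω m)) :=
      Finset.single_le_sum (f := fun m => P.nv v (σ (ω m))) (fun m _ => P.nn _ _)
        (Finset.mem_univ m)
    have h2 : ∑ m, P.nv v (σ (ω m)) ≤ ∑ σ : M ≃ₐ[ℚ] M, ∑ m, P.nv v (σ (ω m)) :=
      Finset.single_le_sum (f := fun σ : M ≃ₐ[ℚ] M => ∑ m, P.nv v (σ (ω m)))
        (fun σ _ => Finset.sum_nonneg fun m _ => P.nn _ _) (Finset.mem_univ σ)
    have h3 : ∑ σ : M ≃ₐ[ℚ] M, ∑ m, P.nv v (σ (ω m))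
        ≤ ∑ v ∈ plc S, ∑ σ : M ≃ₐ[ℚ] M, ∑ m, P.nv v (σ (ω m)) :=
      Finset.single_le_sum (f := fun v => ∑ σ : M ≃ₐ[ℚ] M, ∑ m, P.nv v (σ (ω m)))
        (fun v _ => Finset.sum_nonneg fun σ _ => Finset.sum_nonneg fun m _ => P.nn _ _) hv
    linarith
  -- the new sequence of parameters
  set Q' : ℕ → ℝ := fun j => if j ∈ M1 then Q j else j with hQ'
  have hQ'1 : ∀ j ∈ M1, Q' j = Q j := fun j hj => by simp only [hQ']; rw [if_pos hj]
  have hlim : Filter.Tendsto Q' Filter.atTop Filter.atTop := by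
    rw [Filter.tendsto_atTop]
    intro B
    have hf2 : ∀ᶠ j : ℕ in Filter.atTop, j ∉ {j | j ∈ M1 ∧ Q j ≤ B} := by
      have := (hfin B).eventually_cofinite_notMem
      rwa [Nat.cofinite_eq_atTop] at this
    filter_upwards [hf2, Filter.eventually_ge_atTop ⌈B⌉₊] with j hj1 hj2
    simp only [hQ']
    split_ifs with hjM
    · by_contra hcon
      exact hj1 ⟨hjM, (not_le.mp hcon).le⟩
    · exact (Nat.le_ceil B).trans (by exact_mod_cast hj2)
  have hN : 1 ≤ N := by
    have : 0 < N := Fin.pos (e.symm (1, ⟨0, by omega⟩))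
    omega
  have hsum' : ∑ v ∈ plc S, ∑ I : Fin N, c v (e I).1 (e I).2 < 0 := by
    have h1 : ∀ v, ∑ I : Fin N, c v (e I).1 (e I).2 = ∑ σ : M ≃ₐ[ℚ] M, ∑ i, c v σ i := by
      intro v
      rw [← Fintype.sum_prod_type' (fun σ i => c v σ i)]
      exact Equiv.sum_comp e (fun q : (M ≃ₐ[ℚ] M) × Fin n => c v q.1 q.2)
    simp only [h1]
    exact hsum
  have hKK : 1 ≤ K0 * (C1 * K) := one_le_mul_of_one_le_of_one_le hK0
    (one_le_mul_of_one_le_of_one_le hC10 hK)
  obtain ⟨u, hu, hinf⟩ := hPARM M S P N A (fun v I => c v (e I).1 (e I).2) M1 Q' (K0 * (C1 * K))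
    hN hS hA hRt (fun p hp I => hc p hp _ _) hsum' hM1 hlim hKK
  obtain ⟨a, ha, haz⟩ := hKTR M n d ω (fun k l => u (f.symm (k, l))) (by
    intro h0
    apply hu
    funext I
    have h1 := congrFun (congrFun h0 (f I).1) (f I).2
    simpa using h1)
  refine ⟨a, ha, hinf.mono ?_⟩
  rintro j ⟨hj, hbox⟩
  refine ⟨hj, fun x hx hxb => haz x fun m => ?_⟩
  -- coordinates of the multiple
  have hX : ∀ k, ∃ X : Fin d → ℤ, ω m * x k = ∑ l, (X l : M) * ω l := fun k =>
    hωz _ ((hωi m).mul (hx k))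
  choose X hX using hX
  have h1 : ∀ I : Fin N, ((fun I => X (f I).1 (f I).2 : Fin N → ℤ)) I = X (f I).1 (f I).2 :=
    fun _ => rfl
  have hvec : (fun k => ∑ l, (((fun I => X (f I).1 (f I).2 : Fin N → ℤ) (f.symm (k, l)) : ℤ) : M)
      * ω l) = fun k => ω m * x k := by
    funext k
    rw [hX k]
    refine Finset.sum_congr rfl fun l _ => ?_
    simp only [Equiv.apply_symm_apply]
  have h2 := hbox (fun I => X (f I).1 (f I).2) (by
    intro v hv I
    have h3 : P.nv v ((e I).1 ((L v (e I).1).mulVec (fun k => ω m * x k) (e I).2))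
        ≤ C1 * K * Q' j ^ (c v (e I).1 (e I).2) := by
      have h4 : (L v (e I).1).mulVec (fun k => ω m * x k) (e I).2
          = ω m * (L v (e I).1).mulVec x (e I).2 := by
        simp only [Matrix.mulVec, dotProduct]
        rw [Finset.mul_sum]
        exact Finset.sum_congr rfl fun k _ => by ring
      rw [h4, map_mul, P.mul v hv, hQ'1 j hj, mul_assoc]
      exact mul_le_mul (hC1b v hv _ _) (hxb v hv _ _) (P.nn _ _) (by linarith)
    have h5 := hbd v hv (fun I => X (f I).1 (f I).2) I (C1 * K * Q' j ^ (c v (e I).1 (e I).2))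
      (by rw [hvec]; exact h3)
    calc P.nv v ((A v).mulVec (cM fun I => X (f I).1 (f I).2) I)
        ≤ K0 * (C1 * K * Q' j ^ (c v (e I).1 (e I).2)) := h5
      _ = _ := by ring)
  have h6 : ∀ k l, ω.repr (ω m * x k) l = (X k l : ℚ) := fun k l => by rw [hX k, repr_int]
  simp only [h6]
  rw [← h2, ← Fintype.sum_prod_type' (fun k l => u (f.symm (k, l)) * (X k l : ℚ))]
  rw [← Equiv.sum_comp f (fun q : Fin n × Fin d => u (f.symm (q.1, q.2)) * (X q.1 q.2 : ℚ))]
  refine Finset.sum_congr rfl fun I _ => ?_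
  simp

end Pool.Agent.Helper60.SUBK
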