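import Pool.Agent.Helper77.SUBK.SheetK

/-!
Project SUBK, row SUBTK: the Subspace theorem over a Galois extension of `ℚ`, from the parametric
one.
-/

set_option autoImplicit false

namespace Pool.Agent.Helper60.SUBK

open Finset Matrix
open Pool.Agent.Helper70.SUB Pool.Agent.Helper77.SUBK

/-- a common denominator of finitely many numbers -/
theorem ex_cd {M : Type} [Field M] [NumberField M] (s : Finset M) :
    ∃ D : ℕ, 1 ≤ D ∧ ∀ z ∈ s, IsIntegral ℤ ((D : M) * z) := by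
  classical
  have halg : Algebra.IsAlgebraic ℤ M :=
    (IsFractionRing.comap_isAlgebraic_iff (A := ℤ) (K := ℚ) (C := M)).2 inferInstance
  obtain ⟨y, hy, h⟩ := Algebra.IsAlgebraic.exists_integral_multiples ℤ s
  refine ⟨y.natAbs, Nat.one_le_iff_ne_zero.2 (by omega), fun z hz => ?_⟩
  have h1 := h z hz
  rw [zsmul_eq_mul] at h1
  rcases Int.natAbs_eq y with h2 | h2
  · have h3 : ((y.natAbs : ℕ) : M) = (y : M) := by
      rw [← Int.cast_natCast, ← h2]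
    rw [h3]; exact h1
  · have h3 : ((y.natAbs : ℕ) : M) = -(y : M) := by
      rw [← Int.cast_natCast, ← Int.cast_neg]
      congr 1
      omega
    rw [h3, neg_mul]; exact h1.neg

/-- sizes of the values of the linear forms -/
theorem bdK (hAV : ST_AV) (hGALA : ST_GALA) (hLIOM : ST_LIOM) (M : Type) [Field M] [NumberField M]
    [IsGalois ℚ M] (S : Finset ℕ) (P : PF S M) (n : ℕ)
    (L : Option ℕ → (M ≃ₐ[ℚ] M) → Matrix (Fin n) (Fin n) M) (hS : ∀ p ∈ S, p.Prime) :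
    ∃ (D : ℕ) (T : ℝ), 1 ≤ D ∧ 1 ≤ T ∧ ∀ (x : Fin n → M) (R : ℝ), 1 ≤ R →
      (∀ k, IsIntegral ℤ (x k)) → (∀ (σ : M ≃ₐ[ℚ] M) (k : Fin n), P.nv none (σ (x k)) ≤ R) →
      ∀ v ∈ plc S, ∀ (σ : M ≃ₐ[ℚ] M) (i : Fin n), (L v σ).mulVec x i ≠ 0 →
        P.nv none (σ ((L v σ).mulVec x i)) ≤ T * R ∧
        (v ≠ none → P.nv v (σ ((L v σ).mulVec x i)) ≤ D) ∧
        1 ≤ ((D : ℝ) * (T * R)) ^ (Module.finrank ℚ M) * P.nv v (σ ((L v σ).mulVec x i)) := by
  classical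
  obtain ⟨D, hD, hDi⟩ := ex_cd (((plc S) ×ˢ (univ : Finset ((M ≃ₐ[ℚ] M) × Fin n × Fin n))).image
    fun q => L q.1 q.2.1 q.2.2.1 q.2.2.2)
  have hDi' : ∀ v ∈ plc S, ∀ (σ : M ≃ₐ[ℚ] M) (i k : Fin n), IsIntegral ℤ ((D : M) * L v σ i k) := by
    intro v hv σ i k
    refine hDi _ (Finset.mem_image.2 ⟨(v, σ, i, k), ?_, rfl⟩)
    rw [Finset.mem_product]
    exact ⟨hv, Finset.mem_univ _⟩
  set g : Option ℕ → (M ≃ₐ[ℚ] M) → Fin n → (M ≃ₐ[ℚ] M) → ℝ := fun v σ i τ =>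
    ∑ k, P.nv none (τ (σ (L v σ i k))) with hg
  have hg0 : ∀ v σ i τ, 0 ≤ g v σ i τ := fun v σ i τ => Finset.sum_nonneg fun k _ => P.nn _ _
  set T : ℝ := 1 + ∑ v ∈ plc S, ∑ σ : M ≃ₐ[ℚ] M, ∑ i, ∑ τ : M ≃ₐ[ℚ] M, g v σ i τ with hT
  have hTg : ∀ v ∈ plc S, ∀ (σ : M ≃ₐ[ℚ] M) (i : Fin n) (τ : M ≃ₐ[ℚ] M), g v σ i τ ≤ T := by
    intro v hv σ i τ
    have h1 : g v σ i τ ≤ ∑ τ : M ≃ₐ[ℚ] M, g v σ i τ :=
      Finset.single_le_sum (f := fun τ => g v σ i τ) (fun τ _ => hg0 _ _ _ _) (Finset.mem_univ τ)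
    have h2 : ∑ τ : M ≃ₐ[ℚ] M, g v σ i τ ≤ ∑ i, ∑ τ : M ≃ₐ[ℚ] M, g v σ i τ :=
      Finset.single_le_sum (f := fun i => ∑ τ : M ≃ₐ[ℚ] M, g v σ i τ)
        (fun i _ => Finset.sum_nonneg fun τ _ => hg0 _ _ _ _) (Finset.mem_univ i)
    have h3 : ∑ i, ∑ τ : M ≃ₐ[ℚ] M, g v σ i τ
        ≤ ∑ σ : M ≃ₐ[ℚ] M, ∑ i, ∑ τ : M ≃ₐ[ℚ] M, g v σ i τ :=
      Finset.single_le_sum (f := fun σ : M ≃ₐ[ℚ] M => ∑ i, ∑ τ : M ≃ₐ[ℚ] M, g v σ i τ)
        (fun σ _ => Finset.sum_nonneg fun i _ => Finset.sum_nonneg fun τ _ => hg0 _ _ _ _)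
        (Finset.mem_univ σ)
    have h4 : ∑ σ : M ≃ₐ[ℚ] M, ∑ i, ∑ τ : M ≃ₐ[ℚ] M, g v σ i τ
        ≤ ∑ v ∈ plc S, ∑ σ : M ≃ₐ[ℚ] M, ∑ i, ∑ τ : M ≃ₐ[ℚ] M, g v σ i τ :=
      Finset.single_le_sum (f := fun v => ∑ σ : M ≃ₐ[ℚ] M, ∑ i, ∑ τ : M ≃ₐ[ℚ] M, g v σ i τ)
        (fun v _ => Finset.sum_nonneg fun σ _ => Finset.sum_nonneg fun i _ =>
          Finset.sum_nonneg fun τ _ => hg0 _ _ _ _) hv
    linarith
  have hT1 : 1 ≤ T := by
    have : 0 ≤ ∑ v ∈ plc S, ∑ σ : M ≃ₐ[ℚ] M, ∑ i, ∑ τ : M ≃ₐ[ℚ] M, g v σ i τ :=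
      Finset.sum_nonneg fun v _ => Finset.sum_nonneg fun σ _ => Finset.sum_nonneg fun i _ =>
        Finset.sum_nonneg fun τ _ => hg0 _ _ _ _
    linarith
  refine ⟨D, T, hD, hT1, ?_⟩
  intro x R hR hx hxR v hv σ i hne
  have hD1 : (1 : ℝ) ≤ D := by exact_mod_cast hD
  obtain ⟨hemb, -, -⟩ := hGALA M S P hS
  -- size at the real place
  have hsz : ∀ τ : M ≃ₐ[ℚ] M, P.nv none (τ (σ ((L v σ).mulVec x i))) ≤ T * R := by
    intro τ
    have h1 : τ (σ ((L v σ).mulVec x i)) = ∑ k, τ (σ (L v σ i k)) * τ (σ (x k)) := by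
      simp only [Matrix.mulVec, dotProduct, map_sum, map_mul]
    rw [h1]
    refine (P.sum_le mem_none _ _).trans ?_
    calc ∑ k, P.nv none (τ (σ (L v σ i k)) * τ (σ (x k)))
        ≤ ∑ k, P.nv none (τ (σ (L v σ i k))) * R := by
          refine Finset.sum_le_sum fun k _ => ?_
          rw [P.mul none mem_none]
          exact mul_le_mul_of_nonneg_left (hxR (σ.trans τ) k) (P.nn _ _)
      _ = g v σ i τ * R := by rw [hg, ← Finset.sum_mul]
      _ ≤ T * R := mul_le_mul_of_nonneg_right (hTg v hv σ i τ) (by linarith)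
  -- integrality
  have hint : IsIntegral ℤ ((D : M) * σ ((L v σ).mulVec x i)) := by
    have h1 : (D : M) * σ ((L v σ).mulVec x i) = σ (∑ k, ((D : M) * L v σ i k) * x k) := by
      simp only [Matrix.mulVec, dotProduct, map_sum, map_mul, map_natCast]
      rw [Finset.mul_sum]
      exact Finset.sum_congr rfl fun k _ => by ring
    rw [h1]
    have h2 : IsIntegral ℤ (∑ k, ((D : M) * L v σ i k) * x k) :=
      IsIntegral.sum _ fun k _ => (hDi' v hv σ i k).mul (hx k)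
    exact h2.map σ
  refine ⟨hsz 1, ?_, ?_⟩
  · intro hv0
    obtain ⟨p, rfl⟩ : ∃ p, v = some p := Option.ne_none_iff_exists'.mp hv0
    have hp : p ∈ S := of_mem_some hv
    have h1 := PF.integral_le P hAV hS hp hint
    rw [P.mul _ hv, P.natCast hv] at h1
    have h2 := (hAV.2.2 S hS).2.2.2.2.2.1 p hp (D : ℤ) (by exact_mod_cast (by omega : D ≠ 0))
    have h3 : ((D : ℤ) : ℚ) = (D : ℚ) := by simp
    have h4 : |(((D : ℤ) : ℝ))| = (D : ℝ) := by
      rw [Int.cast_natCast, abs_of_nonneg (by linarith)]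
    rw [h3, h4] at h2
    have h5 : 0 ≤ P.nv (some p) (σ ((L (some p) σ).mulVec x i)) := P.nn _ _
    calc P.nv (some p) (σ ((L (some p) σ).mulVec x i))
        ≤ (av (some p) (D : ℚ) * D) * P.nv (some p) (σ ((L (some p) σ).mulVec x i)) :=
          le_mul_of_one_le_left h5 h2
      _ = D * (av (some p) (D : ℚ) * P.nv (some p) (σ ((L (some p) σ).mulVec x i))) := by ring
      _ ≤ D * 1 := mul_le_mul_of_nonneg_left h1 (by linarith)
      _ = D := mul_one _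
  · refine hLIOM M S P (σ ((L v σ).mulVec x i)) D (T * R) hS ?_ hD hint ?_ ?_ v hv
    · exact (map_ne_zero σ).2 hne
    · intro φ
      obtain ⟨τ, hτ⟩ := hemb φ
      rw [hτ]
      exact hsz τ
    · exact one_le_mul_of_one_le_of_one_le hT1 hR

/-- multiplication of a vector by a smooth number does not change the product of the values -/
theorem prod_smooth (hAV : ST_AV) (M : Type) [Field M] [NumberField M] (S : Finset ℕ) (P : PF S M)
    (n : ℕ) (L : Option ℕ → (M ≃ₐ[ℚ] M) → Matrix (Fin n) (Fin n) M) (hS : ∀ p ∈ S, p.Prime)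
    (m : ℕ) (hm : Sm S m) (y : Fin n → M) :
    ∏ v ∈ plc S, ∏ σ : M ≃ₐ[ℚ] M, ∏ i, P.nv v (σ ((L v σ).mulVec (fun k => (m : M) * y k) i))
      = ∏ v ∈ plc S, ∏ σ : M ≃ₐ[ℚ] M, ∏ i, P.nv v (σ ((L v σ).mulVec y i)) := by
  have h1 : ∀ v ∈ plc S, ∏ σ : M ≃ₐ[ℚ] M, ∏ i,
      P.nv v (σ ((L v σ).mulVec (fun k => (m : M) * y k) i))
      = (av v ((m : ℤ) : ℚ) ^ n) ^ (Fintype.card (M ≃ₐ[ℚ] M))
        * ∏ σ : M ≃ₐ[ℚ] M, ∏ i, P.nv v (σ ((L v σ).mulVec y i)) := by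
    intro v hv
    have h2 : ∀ (σ : M ≃ₐ[ℚ] M) (i : Fin n),
        P.nv v (σ ((L v σ).mulVec (fun k => (m : M) * y k) i))
        = av v ((m : ℤ) : ℚ) * P.nv v (σ ((L v σ).mulVec y i)) := by
      intro σ i
      have h3 : (L v σ).mulVec (fun k => (m : M) * y k) i = (m : M) * (L v σ).mulVec y i := by
        simp only [Matrix.mulVec, dotProduct]
        rw [Finset.mul_sum]
        exact Finset.sum_congr rfl fun k _ => by ring
      rw [h3, map_mul, map_natCast, P.mul v hv, P.natCast hv, Int.cast_natCast]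
    simp only [h2]
    simp only [Finset.prod_mul_distrib, Finset.prod_const, Finset.card_univ, Fintype.card_fin]
  rw [Finset.prod_congr rfl h1, Finset.prod_mul_distrib]
  have h4 : ∏ v ∈ plc S, av v ((m : ℤ) : ℚ) = 1 := by
    refine (hAV.2.2 S hS).2.2.2.2.2.2.2.1 (m : ℤ) (by exact_mod_cast hm.1) fun q hq hqm => ?_
    exact hm.2 q hq (by exact_mod_cast hqm)
  rw [Finset.prod_pow, Finset.prod_pow, h4, one_pow, one_pow, one_mul]

/-- (SUBTK) the Subspace theorem over `M` -/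
theorem SUBTK (hAV : ST_AV) (hCPT : ST_CPT) (hGALA : ST_GALA) (hLIOM : ST_LIOM)
    (hKPAR : ST_KPAR) : ST_SUBTK := by
  classical
  intro M _ _ _ S P n L ε A M1 Q y hn hS hdet hCon hε hA hM1 hfin hprod
  -- the degenerate case
  by_cases hdeg : ∃ v ∈ plc S, ∃ (σ : M ≃ₐ[ℚ] M) (i : Fin n),
      {j | j ∈ M1 ∧ (L v σ).mulVec (y j) i = 0}.Infinite
  · obtain ⟨v, hv, σ, i, hinf⟩ := hdeg
    refine ⟨L v σ i, ?_, hinf⟩
    intro h0
    exact hdet v hv σ (Matrix.det_eq_zero_of_row_eq_zero i fun j => congrFun h0 j)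
  push Not at hdeg
  obtain ⟨D, T, hD, hT, hbd⟩ := bdK hAV hGALA hLIOM M S P n L hS
  have hD1 : (1 : ℝ) ≤ D := by exact_mod_cast hD
  have hDT : 1 ≤ (D : ℝ) * T := one_le_mul_of_one_le_of_one_le hD1 hT
  -- smooth denominators
  have hex : ∀ j, ∃ m : ℕ, j ∈ M1 → Sm S m ∧ (m : ℝ) ≤ Q j ^ A ∧
      ∀ i, IsIntegral ℤ ((m : M) * y j i) := by
    intro j
    by_cases hj : j ∈ M1
    · obtain ⟨m, hm⟩ := (hprod j hj).2.1
      exact ⟨m, fun _ => hm⟩
    · exact ⟨0, fun h => absurd h hj⟩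
  choose m hm using hex
  set x : ℕ → Fin n → M := fun j k => (m j : M) * y j k with hx
  have hmul : ∀ (j : ℕ) (v : Option ℕ) (σ : M ≃ₐ[ℚ] M) (i : Fin n),
      (L v σ).mulVec (x j) i = (m j : M) * (L v σ).mulVec (y j) i := by
    intro j v σ i
    simp only [Matrix.mulVec, dotProduct, hx]
    rw [Finset.mul_sum]
    exact Finset.sum_congr rfl fun k _ => by ring
  have hm0 : ∀ j ∈ M1, (m j : M) ≠ 0 := fun j hj => by exact_mod_cast (hm j hj).1.1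
  -- the good indices
  set H0 : ℝ := max (D * T) 3 with hH0
  set Z : Set ℕ := ⋃ v ∈ plc S, ⋃ σ : M ≃ₐ[ℚ] M, ⋃ i : Fin n,
    {j | j ∈ M1 ∧ (L v σ).mulVec (y j) i = 0} with hZ
  have hZf : Z.Finite := by
    refine Set.Finite.biUnion (plc S).finite_toSet fun v hv => ?_
    exact Set.finite_iUnion fun σ => Set.finite_iUnion fun i => hdeg v hv σ i
  set M2 : Set ℕ := M1 \ (Z ∪ {j | j ∈ M1 ∧ Q j ≤ H0}) with hM2
  have hM2i : M2.Infinite := hM1.sdiff (hZf.union (hfin H0))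
  have hM21 : M2 ⊆ M1 := Set.sdiff_subset
  have hbig : ∀ j ∈ M2, H0 < Q j := by
    intro j hj
    by_contra hcon
    exact hj.2 (Or.inr ⟨hj.1, not_lt.mp hcon⟩)
  have hQ1 : ∀ j ∈ M2, 1 < Q j := fun j hj => by
    have := hbig j hj
    have : (3 : ℝ) ≤ H0 := le_max_right _ _
    linarith
  have hQ0 : ∀ j ∈ M2, 0 < Q j := fun j hj => by linarith [hQ1 j hj]
  have hQDT : ∀ j ∈ M2, D * T ≤ Q j := fun j hj =>
    (le_max_left (D * T : ℝ) 3).trans (hbig j hj).le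
  have hnz : ∀ j ∈ M2, ∀ v ∈ plc S, ∀ (σ : M ≃ₐ[ℚ] M) (i : Fin n),
      (L v σ).mulVec (x j) i ≠ 0 := by
    intro j hj v hv σ i h0
    rw [hmul] at h0
    rcases mul_eq_zero.1 h0 with h | h
    · exact hm0 j (hM21 hj) h
    · refine hj.2 (Or.inl ?_)
      simp only [hZ, Set.mem_iUnion]
      exact ⟨v, hv, σ, i, hj.1, h⟩
  have hxi : ∀ j ∈ M2, ∀ k, IsIntegral ℤ (x j k) := fun j hj k => (hm j (hM21 hj)).2.2 k
  have hxR : ∀ j ∈ M2, ∀ (σ : M ≃ₐ[ℚ] M) (k : Fin n), P.nv none (σ (x j k)) ≤ Q j ^ (2 * A) := by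
    intro j hj σ k
    simp only [hx]
    have h1 : P.nv none (m j : M) = m j := by
      rw [P.natCast mem_none]
      have h2 : av none ((m j : ℕ) : ℚ) = |(((m j : ℕ) : ℚ) : ℝ)| := rfl
      rw [h2, Rat.cast_natCast, abs_of_nonneg (Nat.cast_nonneg _)]
    rw [map_mul, map_natCast, P.mul none mem_none, h1]
    have h3 : Q j ^ (2 * A) = Q j ^ A * Q j ^ A := by
      rw [two_mul, Real.rpow_add (hQ0 j hj)]
    rw [h3]
    exact mul_le_mul (hm j (hM21 hj)).2.1 ((hprod j (hM21 hj)).2.2.1 σ k) (P.nn _ _)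
      (Real.rpow_nonneg (hQ0 j hj).le _)
  have hbd' : ∀ j ∈ M2, ∀ v ∈ plc S, ∀ (σ : M ≃ₐ[ℚ] M) (i : Fin n),
      P.nv none (σ ((L v σ).mulVec (x j) i)) ≤ T * Q j ^ (2 * A) ∧
      (v ≠ none → P.nv v (σ ((L v σ).mulVec (x j) i)) ≤ D) ∧
      1 ≤ ((D : ℝ) * (T * Q j ^ (2 * A))) ^ (Module.finrank ℚ M)
        * P.nv v (σ ((L v σ).mulVec (x j) i)) := by
    intro j hj v hv σ i
    refine hbd (x j) (Q j ^ (2 * A)) ?_ (hxi j hj) (hxR j hj) v hv σ i (hnz j hj v hv σ i)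
    exact Real.one_le_rpow (hQ1 j hj).le (by linarith)
  -- exponents
  set F : ℝ := (Module.finrank ℚ M : ℝ) with hF
  have hF0 : 0 ≤ F := Nat.cast_nonneg _
  set ce : ℕ → Option ℕ → (M ≃ₐ[ℚ] M) → Fin n → ℝ := fun j v σ i =>
    Real.log (P.nv v (σ ((L v σ).mulVec (x j) i))) / Real.log (Q j) with hce
  have hlog : ∀ j ∈ M2, 0 < Real.log (Q j) := fun j hj => Real.log_pos (hQ1 j hj)
  have hpos : ∀ j ∈ M2, ∀ v ∈ plc S, ∀ (σ : M ≃ₐ[ℚ] M) (i : Fin n),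
      0 < P.nv v (σ ((L v σ).mulVec (x j) i)) := fun j hj v hv σ i =>
    P.pos v hv _ ((map_ne_zero σ).2 (hnz j hj v hv σ i))
  have hce2 : ∀ j ∈ M2, ∀ v ∈ plc S, ∀ (σ : M ≃ₐ[ℚ] M) (i : Fin n),
      |ce j v σ i| ≤ (F + 1) * (1 + 2 * A) := by
    intro j hj v hv σ i
    have h0 := hpos j hj v hv σ i
    obtain ⟨h1, h2, h3⟩ := hbd' j hj v hv σ i
    have hq := hQ0 j hj
    have hl := hlog j hj
    have hR0 : 0 < Q j ^ (2 * A) := Real.rpow_pos_of_pos hq _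
    have hlR : Real.log (Q j ^ (2 * A)) = 2 * A * Real.log (Q j) := Real.log_rpow hq _
    have hlDT : Real.log (D * (T * Q j ^ (2 * A))) ≤ (1 + 2 * A) * Real.log (Q j) := by
      rw [← mul_assoc, Real.log_mul (by positivity) hR0.ne', hlR]
      have := Real.log_le_log (by linarith : (0 : ℝ) < D * T) (hQDT j hj)
      linarith
    have hup : Real.log (P.nv v (σ ((L v σ).mulVec (x j) i))) ≤ (1 + 2 * A) * Real.log (Q j) := by
      by_cases hv0 : v = none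
      · subst hv0
        have h4 : T * Q j ^ (2 * A) ≤ D * (T * Q j ^ (2 * A)) :=
          le_mul_of_one_le_left (by positivity) hD1
        exact (Real.log_le_log h0 (h1.trans h4)).trans hlDT
      · have h4 : (D : ℝ) ≤ Q j := by
          refine le_trans ?_ (hQDT j hj)
          exact le_mul_of_one_le_right (by linarith) hT
        have h5 := Real.log_le_log h0 ((h2 hv0).trans h4)
        have h6 : 0 ≤ 2 * A * Real.log (Q j) := by positivity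
        linarith
    have hlo : -(F * ((1 + 2 * A) * Real.log (Q j)))
        ≤ Real.log (P.nv v (σ ((L v σ).mulVec (x j) i))) := by
      have h4 := Real.log_le_log one_pos h3
      have h5 : 0 < (D : ℝ) * (T * Q j ^ (2 * A)) := by positivity
      rw [Real.log_one, Real.log_mul (pow_pos h5 _).ne' h0.ne', Real.log_pow] at h4
      have h6 := mul_le_mul_of_nonneg_left hlDT hF0
      linarith
    rw [hce, abs_le]
    simp only
    have h7 : 0 ≤ (1 + 2 * A) * Real.log (Q j) := by positivity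
    have h8 : 0 ≤ F * ((1 + 2 * A) * Real.log (Q j)) := mul_nonneg hF0 h7
    constructor
    · rw [le_div_iff₀ hl]; nlinarith
    · rw [div_le_iff₀ hl]; nlinarith
  have hpow : ∀ j ∈ M2, ∀ v ∈ plc S, ∀ (σ : M ≃ₐ[ℚ] M) (i : Fin n),
      P.nv v (σ ((L v σ).mulVec (x j) i)) = Q j ^ (ce j v σ i) := by
    intro j hj v hv σ i
    rw [Real.rpow_def_of_pos (hQ0 j hj), hce]
    simp only
    rw [mul_div_cancel₀ _ (hlog j hj).ne', Real.exp_log (hpos j hj v hv σ i)]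
  -- the sum of the exponents
  have hsum : ∀ j ∈ M2, ∑ v ∈ plc S, ∑ σ : M ≃ₐ[ℚ] M, ∑ i, ce j v σ i ≤ -ε := by
    intro j hj
    have h1 : ∏ v ∈ plc S, ∏ σ : M ≃ₐ[ℚ] M, ∏ i, P.nv v (σ ((L v σ).mulVec (x j) i))
        ≤ Q j ^ (-ε) := by
      rw [prod_smooth hAV M S P n L hS (m j) (hm j (hM21 hj)).1 (y j)]
      exact (hprod j (hM21 hj)).2.2.2
    have h2 : ∏ v ∈ plc S, ∏ σ : M ≃ₐ[ℚ] M, ∏ i, P.nv v (σ ((L v σ).mulVec (x j) i))
        = Q j ^ (∑ v ∈ plc S, ∑ σ : M ≃ₐ[ℚ] M, ∑ i, ce j v σ i) := by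
      rw [Real.rpow_sum_of_pos (hQ0 j hj)]
      refine Finset.prod_congr rfl fun v hv => ?_
      rw [Real.rpow_sum_of_pos (hQ0 j hj)]
      refine Finset.prod_congr rfl fun σ _ => ?_
      rw [Real.rpow_sum_of_pos (hQ0 j hj)]
      exact Finset.prod_congr rfl fun i _ => hpow j hj v hv σ i
    rw [h2] at h1
    exact (Real.rpow_le_rpow_left_iff (hQ1 j hj)).mp h1
  -- compactness
  set mm : ℝ := (plc S).card * (Fintype.card (M ≃ₐ[ℚ] M) * n) with hmm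
  have hcard : 0 < (plc S).card := Finset.card_pos.mpr ⟨none, mem_none⟩
  have hmm0 : 0 < mm := by
    have h1 : (0 : ℝ) < (plc S).card := by exact_mod_cast hcard
    have h2 : (0 : ℝ) < n := by exact_mod_cast (by omega : 0 < n)
    have h3 : (0 : ℝ) < Fintype.card (M ≃ₐ[ℚ] M) := by exact_mod_cast Fintype.card_pos
    positivity
  set η : ℝ := ε / (4 * mm) with hη
  have hη0 : 0 < η := by positivity
  obtain ⟨M', c0, hM'1, hM'i, hc0⟩ := hCPT ({v // v ∈ plc S} × (M ≃ₐ[ℚ] M) × Fin n) M2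
    ((F + 1) * (1 + 2 * A)) η (fun j q => ce j q.1.1 q.2.1 q.2.2) hM2i hη0
    (fun j hj q => hce2 j hj q.1.1 q.1.2 q.2.1 q.2.2)
  set e : Option ℕ → (M ≃ₐ[ℚ] M) → Fin n → ℝ := fun v σ i =>
    if h : v ∈ plc S then c0 (⟨v, h⟩, σ, i) else 0 with he
  have hc0' : ∀ j ∈ M', ∀ v ∈ plc S, ∀ (σ : M ≃ₐ[ℚ] M) (i : Fin n),
      |ce j v σ i - e v σ i| ≤ η := by
    intro j hj v hv σ i
    have := hc0 j hj (⟨v, hv⟩, σ, i)
    simpa [he, hv] using this
  set c : Option ℕ → (M ≃ₐ[ℚ] M) → Fin n → ℝ := fun v σ i =>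
    if v = none then e v σ i + η else min (e v σ i + η) 0 with hc
  have hcle : ∀ v σ i, c v σ i ≤ e v σ i + η := by
    intro v σ i
    simp only [hc]
    split_ifs
    · exact le_rfl
    · exact min_le_left _ _
  have hres := hKPAR M S P n L c M' Q D hn hS hdet hCon ?_ ?_ hM'i ?_ hD1
  · obtain ⟨a, ha, hai⟩ := hres
    refine ⟨a, ha, hai.mono ?_⟩
    rintro j ⟨hj, hbox⟩
    have hj2 := hM'1 hj
    have hj1 := hM21 hj2
    refine ⟨hj1, ?_⟩
    have h1 := hbox (x j) (hxi j hj2) (by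
      intro v hv σ i
      have hle : Q j ^ (ce j v σ i) ≤ Q j ^ (e v σ i + η) := by
        have h2 := (abs_le.mp (hc0' j hj v hv σ i)).2
        exact Real.rpow_le_rpow_of_exponent_le (hQ1 j hj2).le (by linarith)
      have h3 : P.nv v (σ ((L v σ).mulVec (x j) i)) ≤ Q j ^ (e v σ i + η) := by
        rw [hpow j hj2 v hv σ i]; exact hle
      have h4 : 0 ≤ Q j ^ (e v σ i + η) := Real.rpow_nonneg (hQ0 j hj2).le _
      simp only [hc]
      split_ifs with hv0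
      · exact h3.trans (le_mul_of_one_le_left h4 hD1)
      · rcases le_total (e v σ i + η) 0 with h5 | h5
        · rw [min_eq_left h5]; exact h3.trans (le_mul_of_one_le_left h4 hD1)
        · rw [min_eq_right h5, Real.rpow_zero, mul_one]
          exact (hbd' j hj2 v hv σ i).2.1 hv0)
    have h6 : ∑ k, a k * x j k = (m j : M) * ∑ k, a k * y j k := by
      rw [Finset.mul_sum]
      exact Finset.sum_congr rfl fun k _ => by simp only [hx]; ring
    rw [h6] at h1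
    exact (mul_eq_zero.1 h1).resolve_left (hm0 j hj1)
  · intro p hp σ i
    simp only [hc]
    rw [if_neg (by simp)]
    exact min_le_right _ _
  · obtain ⟨j, hj⟩ := hM'i.nonempty
    have h1 : ∑ v ∈ plc S, ∑ σ : M ≃ₐ[ℚ] M, ∑ i, c v σ i
        ≤ ∑ v ∈ plc S, ∑ σ : M ≃ₐ[ℚ] M, ∑ i, (ce j v σ i + 2 * η) := by
      refine Finset.sum_le_sum fun v hv => Finset.sum_le_sum fun σ _ =>
        Finset.sum_le_sum fun i _ => ?_
      have h2 := (abs_le.mp (hc0' j hj v hv σ i)).1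
      linarith [hcle v σ i]
    have h3 : ∑ v ∈ plc S, ∑ σ : M ≃ₐ[ℚ] M, ∑ i : Fin n, (ce j v σ i + 2 * η)
        = (∑ v ∈ plc S, ∑ σ : M ≃ₐ[ℚ] M, ∑ i, ce j v σ i) + mm * (2 * η) := by
      simp only [Finset.sum_add_distrib, Finset.sum_const, Finset.card_univ, Fintype.card_fin,
        nsmul_eq_mul]
      rw [hmm]; ring
    have h4 : mm * (2 * η) = ε / 2 := by
      rw [hη]; field_simp; ring
    have h5 := hsum j (hM'1 hj)
    rw [h3, h4] at h1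
    linarith
  · intro B
    exact (hfin B).subset fun j hj => ⟨hM21 (hM'1 hj.1), hj.2⟩

end Pool.Agent.Helper60.SUBK
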