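import Pool.Agent.Helper70.SUB.SheetL

/-!
Project SUBK, row SUBYK: an integer close, at every archimedean place, to the value of a Laurent
polynomial in independent S-units is such a value.
-/

set_option autoImplicit false

namespace Pool.Agent.Helper60.SUBK

open Finset Matrix
open Pool.Agent.Helper70.SUB Pool.Agent.Helper77.SUBK Pool.Agent.Helper70.SUBL

/-- sums over a finite set as sums over `Fin t` -/
theorem ex_enumM {α : Type} (M : Type) [AddCommMonoid M] (s : Finset α) :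
    ∃ ms : Fin s.card → α, Function.Injective ms ∧
    (∀ i, ms i ∈ s) ∧ ∀ f : α → M, ∑ a ∈ s, f a = ∑ i, f (ms i) := by
  refine ⟨fun i => ((s.equivFin.symm i : s) : α), ?_, fun i => (s.equivFin.symm i).2, ?_⟩
  · intro i i' h
    exact s.equivFin.symm.injective (Subtype.ext h)
  · intro f
    rw [← Finset.sum_coe_sort s f]
    exact (Equiv.sum_comp s.equivFin.symm (fun a : s => f a)).symm

/-- the forms at the real places -/
def Ark {M : Type} [Field M] {t : ℕ} (F : Fin t → M) : Matrix (Fin (t + 1)) (Fin (t + 1)) M :=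
  fun i j => Fin.cases (Fin.cases 1 (fun j' => -F j') j) (fun i' => if j = i'.succ then 1 else 0) i

theorem Ark_det {M : Type} [Field M] {t : ℕ} (F : Fin t → M) : (Ark F).det = 1 := by
  have h1 : (Ark F).BlockTriangular id := by
    intro i j hij
    refine Fin.cases ?_ (fun i' => ?_) i hij
    · intro h; exact absurd h (by simp)
    · intro h
      simp only [id] at h
      simp only [Ark, Fin.cases_succ]
      rw [if_neg h.ne]
  rw [Matrix.det_of_isUpperTriangular h1]
  refine Finset.prod_eq_one fun i _ => ?_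
  refine Fin.cases ?_ (fun i' => ?_) i
  · simp [Ark]
  · simp [Ark]

theorem Ark_zero {M : Type} [Field M] {t : ℕ} (F : Fin t → M) (x : Fin (t + 1) → M) :
    (Ark F).mulVec x 0 = x 0 - ∑ i, F i * x i.succ := by
  simp only [Matrix.mulVec, dotProduct, Ark, Fin.cases_zero]
  rw [Fin.sum_univ_succ]
  simp only [Fin.cases_zero, Fin.cases_succ, one_mul, neg_mul, Finset.sum_neg_distrib]
  ring

theorem Ark_succ {M : Type} [Field M] {t : ℕ} (F : Fin t → M) (x : Fin (t + 1) → M) (i : Fin t) :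
    (Ark F).mulVec x i.succ = x i.succ := by
  simp only [Matrix.mulVec, dotProduct, Ark, Fin.cases_succ]
  simp

theorem evM_zero {M : Type} [Field M] {r : ℕ} (w : Fin r → M) : evM w (0 : LauM M r) = 0 := by
  simp [evM]

theorem evM_sum (hLAUBM : ST_LAUBM) {M : Type} [Field M] {r : ℕ} (w : Fin r → M)
    (hw : ∀ k, w k ≠ 0) {ι : Type}
    (s : Finset ι) (G : ι → LauM M r) : evM w (∑ i ∈ s, G i) = ∑ i ∈ s, evM w (G i) := by
  classical
  obtain ⟨-, -, hadd, -, -⟩ := (hLAUBM M r).1 w hw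
  induction s using Finset.induction_on with
  | empty => simpa using evM_zero w
  | insert a s ha ih => rw [Finset.sum_insert ha, Finset.sum_insert ha, hadd, ih]

theorem monM_ne {M : Type} [Field M] {r : ℕ} (w : Fin r → M) (m : Fin r → ℤ) (h0 : ∀ k, w k ≠ 0) :
    monM w m ≠ 0 :=
  Finset.prod_ne_zero_iff.mpr fun k _ => zpow_ne_zero _ (h0 k)

/-- a common bound for the exponents -/
theorem ex_BM {r : ℕ} (s : Finset (Fin r → ℤ)) : ∃ B : ℕ, ∀ m ∈ s, ∀ k, (m k).natAbs ≤ B := by
  refine ⟨∑ m ∈ s, ∑ k, (m k).natAbs, fun m hm k => ?_⟩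
  exact (Finset.single_le_sum (f := fun k => (m k).natAbs) (fun _ _ => Nat.zero_le _)
      (Finset.mem_univ k)).trans
      (Finset.single_le_sum (f := fun m : Fin r → ℤ => ∑ k, (m k).natAbs)
        (fun _ _ => Nat.zero_le _) hm)

/-- monomials in S-units are S-units -/
theorem monM_SV (hSVB : ST_SVB) {M : Type} [Field M] [NumberField M] (S : Finset ℕ) {r : ℕ}
    (w : Fin r → M) (hw : ∀ k, SV S (w k)) (m : Fin r → ℤ) : SV S (monM w m) := by
  obtain ⟨-, -, -, -, -, -, -, hz, hp, -⟩ := hSVB M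
  exact hp S (Fin r) _ _ fun k _ => hz S (w k) (m k) (hw k)

/-- the height of a monomial -/
theorem monM_HB (hPRK : ST_PRK) {M : Type} [Field M] [NumberField M] [IsGalois ℚ M]
    (S : Finset ℕ) (P : PF S M) (hS : ∀ p ∈ S, p.Prime) {r : ℕ} (w : Fin r → M) (R : ℝ)
    (hR : 1 ≤ R) (hw : ∀ k, SV S (w k) ∧ HB P R (w k)) (B : ℕ) (m : Fin r → ℤ)
    (hm : ∀ k, (m k).natAbs ≤ B) :
    HB P (R ^ ((plc S).card * Fintype.card (M ≃ₐ[ℚ] M) * B * r)) (monM w m) := by
  classical
  intro v hv σ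
  set N : ℕ := (plc S).card * Fintype.card (M ≃ₐ[ℚ] M) with hN
  have hcard : 0 < (plc S).card := Finset.card_pos.mpr ⟨none, mem_none⟩
  have hN1 : 1 ≤ N := Nat.mul_pos hcard Fintype.card_pos
  have hRN : R ≤ R ^ N := le_self_pow₀ hR (by omega)
  have hRN1 : 1 ≤ R ^ N := one_le_pow₀ hR
  unfold monM
  rw [map_prod, P.prod hv]
  calc ∏ k, P.nv v (σ (w k ^ m k)) ≤ ∏ _k : Fin r, (R ^ N) ^ B := by
        refine Finset.prod_le_prod (fun k _ => P.nn _ _) fun k _ => ?_
        rw [map_zpow₀, P.zpow hv]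
        have h1 : P.nv v (σ (w k)) ≤ R ^ N := ((hw k).2 v hv σ).trans hRN
        have h2 : P.nv v (σ (w k))⁻¹ ≤ R ^ N := by
          have := ((hPRK M S P hS).2.2 (w k) R (hw k).1 (hw k).2).2 v hv σ
          rwa [map_inv₀] at this
        rw [P.inv hv] at h2
        have h3 : (R ^ N) ^ (m k).natAbs ≤ (R ^ N) ^ B := pow_le_pow_right₀ hRN1 (hm k)
        refine le_trans ?_ h3
        rcases Int.natAbs_eq (m k) with h4 | h4
        · rw [h4, zpow_natCast, Int.natAbs_natCast]
          exact pow_le_pow_left₀ (P.nn _ _) h1 _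
        · rw [h4, _root_.zpow_neg, zpow_natCast, ← inv_pow, Int.natAbs_neg, Int.natAbs_natCast]
          exact pow_le_pow_left₀ (inv_nonneg.2 (P.nn _ _)) h2 _
    _ = R ^ (N * B * r) := by
        rw [Finset.prod_const, Finset.card_univ, Fintype.card_fin, ← pow_mul, ← pow_mul, mul_assoc N B r]

/-- (SUBYK) -/
theorem SUBYK (hAV : ST_AV) (hSUBTK : ST_SUBTK) (hRELK : ST_RELK) (hPRK : ST_PRK) (hDEN : ST_DEN)
    (hSVB : ST_SVB) (hLAUBM : ST_LAUBM) : ST_SUBYK := by
  classical
  intro M _ _ _ S P r M1 w F a η H z hS hM hη ha hind hHfin hj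
  -- the union of the supports
  set s : Finset (Fin r → ℤ) := Finset.univ.biUnion fun σ : M ≃ₐ[ℚ] M =>
    Finsupp.support (F σ).coeff with hs
  obtain ⟨ms, hinj, hmem, hsum⟩ := ex_enumM M s
  have hev : ∀ σ j, evM (w j) (F σ) = ∑ i, (F σ).coeff (ms i) * monM (w j) (ms i) := by
    intro σ j
    rw [← hsum fun m => (F σ).coeff m * monM (w j) m]
    simp only [evM]
    refine Finset.sum_subset ?_ fun m _ hm => ?_
    · intro m hm
      exact Finset.mem_biUnion.2 ⟨σ, Finset.mem_univ _, hm⟩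
    · rw [Finsupp.notMem_support_iff.1 hm, zero_mul]
  have hnz1 : ∀ q : ℤ, P.nv none (q : M) = |(q : ℝ)| := by
    intro q
    rw [P.intCast mem_none]
    have h2 : av none ((q : ℤ) : ℚ) = |(((q : ℤ) : ℚ) : ℝ)| := rfl
    rw [h2, Rat.cast_intCast]
  by_cases ht : s.card = 0
  · -- all polynomials are zero
    refine ⟨M1 \ {j | j ∈ M1 ∧ H j ≤ 1}, 0, Set.sdiff_subset, hM.sdiff (hHfin 1), ?_⟩
    rintro j ⟨hjM, hj1⟩
    have hH1 : 1 < H j := by
      by_contra hcon; exact hj1 ⟨hjM, not_lt.mp hcon⟩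
    obtain ⟨-, -, -, h4⟩ := hj j hjM
    have h4 := h4 1
    have he : IsEmpty (Fin s.card) := by rw [ht]; infer_instance
    rw [hev, Finset.univ_eq_empty, Finset.sum_empty, sub_zero, map_intCast, hnz1] at h4
    have h5 : H j ^ (-η) < 1 := Real.rpow_lt_one_of_one_lt_of_neg hH1 (by linarith)
    have h6 : |(z j : ℝ)| < 1 := h4.trans_lt h5
    have h7 : z j = 0 := by
      have : |z j| < 1 := by exact_mod_cast h6
      exact Int.abs_lt_one_iff.mp this
    rw [h7, evM_zero]; simp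
  have hw0 : ∀ j ∈ M1, ∀ k, w j k ≠ 0 := hind.1
  obtain ⟨B, hB⟩ := ex_BM s
  have hBm : ∀ i k, (ms i k).natAbs ≤ B := fun i => hB _ (hmem i)
  have hSVm : ∀ j ∈ M1, ∀ i, SV S (monM (w j) (ms i)) := fun j hjM i =>
    monM_SV hSVB S (w j) (fun k => ((hj j hjM).2.1 k).1) (ms i)
  -- representatives of the classes of the archimedean places
  set Φ : (M ≃ₐ[ℚ] M) → M → ℝ := fun σ x => P.nv none (σ x) with hΦ
  set rep : (M ≃ₐ[ℚ] M) → (M ≃ₐ[ℚ] M) := fun σ => Function.invFun Φ (Φ σ) with hrep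
  have hrep1 : ∀ σ x, P.nv none (rep σ x) = P.nv none (σ x) := by
    intro σ x
    have h1 : Φ (rep σ) = Φ σ := Function.invFun_eq ⟨σ, rfl⟩
    exact congrFun h1 x
  set L : Option ℕ → (M ≃ₐ[ℚ] M) → Matrix (Fin (s.card + 1)) (Fin (s.card + 1)) M :=
    fun v σ => if v = none then Ark (fun i => (F (rep σ)).coeff (ms i)) else 1 with hL
  set Y : ℕ → Fin (s.card + 1) → M := fun j => Fin.cons ((z j : ℤ) : M)
    (fun i => monM (w j) (ms i)) with hY
  have hY0 : ∀ j, Y j 0 = (z j : M) := fun j => rfl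
  have hYs : ∀ j i, Y j (Fin.succ i) = monM (w j) (ms i) := fun j i => rfl
  -- sizes
  set N : ℕ := (plc S).card * Fintype.card (M ≃ₐ[ℚ] M) * B * r with hN
  set E : ℝ := a * N + a with hE
  have hE0 : 0 < E := by positivity
  have hmonE : ∀ j ∈ M1, ∀ i, HB P (H j ^ E) (monM (w j) (ms i)) := by
    intro j hjM i v hv σ
    obtain ⟨hH1, hSQ, -, -⟩ := hj j hjM
    have hH0 : 0 ≤ H j := by linarith
    have hHa : 1 ≤ H j ^ a := Real.one_le_rpow hH1 ha.le
    have h1 := monM_HB hPRK S P hS (w j) (H j ^ a) hHa hSQ B (ms i) (hBm i) v hv σ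
    rw [← hN, ← Real.rpow_natCast, ← Real.rpow_mul hH0] at h1
    exact h1.trans (Real.rpow_le_rpow_of_exponent_le hH1 (by rw [hE]; linarith))
  have hzE : ∀ j ∈ M1, |(z j : ℝ)| ≤ H j ^ E := by
    intro j hjM
    obtain ⟨hH1, -, hz, -⟩ := hj j hjM
    refine hz.trans (Real.rpow_le_rpow_of_exponent_le hH1 ?_)
    have : 0 ≤ a * N := by positivity
    rw [hE]; linarith
  -- large indices
  set p0 : ℝ := ∏ p ∈ S, (p : ℝ) with hp0
  have hp01 : 1 ≤ p0 := by
    have h1 : ∀ p ∈ S, (1 : ℝ) ≤ (p : ℝ) := fun p hp => by exact_mod_cast (hS p hp).one_lt.le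
    calc (1 : ℝ) = ∏ p ∈ S, (1 : ℝ) := by simp
      _ ≤ p0 := Finset.prod_le_prod (fun _ _ => zero_le_one) h1
  set M2 : Set ℕ := M1 \ {j | j ∈ M1 ∧ H j ≤ p0} with hM2
  have hM21 : M2 ⊆ M1 := Set.sdiff_subset
  have hM2i : M2.Infinite := hM.sdiff (hHfin p0)
  have hbig : ∀ j ∈ M2, p0 < H j := by
    intro j hjM
    by_contra hcon
    exact hjM.2 ⟨hjM.1, not_lt.mp hcon⟩
  set A : ℝ := E * S.card + 1 + E with hA
  have hA0 : 0 < A := by positivity
  have hcardG : 0 < Fintype.card (M ≃ₐ[ℚ] M) := Fintype.card_pos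
  obtain ⟨hnn, -, hAV2⟩ := hAV
  obtain ⟨-, hmul, -, -, hle1, -, -, hone, -⟩ := hAV2 S hS
  have hres := hSUBTK M S P (s.card + 1) L η A M2 H Y (by omega) hS ?_ ?_ hη hA0 hM2i
    (fun b => (hHfin b).subset fun j hjj => ⟨hM21 hjj.1, hjj.2⟩) ?_
  rotate_left
  · intro v _ σ
    by_cases hv : v = none
    · simp only [hL, hv, if_true]; rw [Ark_det]; exact one_ne_zero
    · simp only [hL, if_neg hv, Matrix.det_one]; exact one_ne_zero
  · intro v _ σ σ' h
    by_cases hv : v = none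
    · subst hv
      have h1 : Φ σ = Φ σ' := funext h
      have h2 : rep σ = rep σ' := by simp only [hrep]; rw [h1]
      simp only [hL, if_true]
      rw [h2]
    · simp only [hL, if_neg hv]
  · intro j hjM2
    have hjM := hM21 hjM2
    obtain ⟨hH1, hSQ, hz, hzF⟩ := hj j hjM
    have hH0 : 0 < H j := by linarith
    have hHE1 : 1 ≤ H j ^ E := Real.one_le_rpow hH1 hE0.le
    refine ⟨hH1, ?_, ?_, ?_⟩
    · -- denominators
      obtain ⟨n, hn, hnle, hnint⟩ := (hDEN M S P hS).1 (H j ^ E) hHE1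
      refine ⟨n, hn, ?_, ?_⟩
      · refine hnle.trans ?_
        have h1 : (H j ^ E) ^ S.card = H j ^ (E * S.card) := by
          rw [← Real.rpow_natCast, ← Real.rpow_mul hH0.le]
        have h2 : H j ^ (E * S.card + 1) = H j * H j ^ (E * S.card) := by
          rw [Real.rpow_add hH0, Real.rpow_one, mul_comm]
        rw [h1]
        calc p0 * H j ^ (E * S.card) ≤ H j * H j ^ (E * S.card) :=
              mul_le_mul_of_nonneg_right (hbig j hjM2).le (by positivity)
          _ = H j ^ (E * S.card + 1) := h2.symm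
          _ ≤ H j ^ A := Real.rpow_le_rpow_of_exponent_le hH1 (by rw [hA]; linarith)
      · intro i
        refine Fin.cases ?_ (fun i' => ?_) i
        · rw [hY0]
          have h1 : ((n : ℕ) : M) * (z j : M) = (((n : ℤ) * z j : ℤ) : M) := by push_cast; ring
          rw [h1]
          exact isIntegral_algebraMap (R := ℤ) (A := M) (x := (n : ℤ) * z j)
        · rw [hYs]
          exact hnint _ (hSVm j hjM i').2.1 fun p hp σ => hmonE j hjM i' _ (mem_some hp) σ
    · intro σ i
      have hEA : H j ^ E ≤ H j ^ A := by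
        refine Real.rpow_le_rpow_of_exponent_le hH1 ?_
        have : 0 ≤ E * S.card := by positivity
        rw [hA]; linarith
      refine Fin.cases ?_ (fun i' => ?_) i
      · rw [hY0, map_intCast, hnz1]
        exact (hzE j hjM).trans hEA
      · rw [hYs]
        exact (hmonE j hjM i' _ mem_none σ).trans hEA
    · -- the product
      have h1 : ∀ v ∈ plc S, ∀ σ : M ≃ₐ[ℚ] M, ∏ i, P.nv v (σ ((L v σ).mulVec (Y j) i))
          = P.nv v (σ ((L v σ).mulVec (Y j) 0)) * ∏ i, P.nv v (σ (monM (w j) (ms i))) := by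
        intro v _ σ
        rw [Fin.prod_univ_succ]
        congr 1
        refine Finset.prod_congr rfl fun i _ => ?_
        by_cases hv : v = none
        · simp only [hL, hv, if_true]; rw [Ark_succ, hYs]
        · simp only [hL, if_neg hv, Matrix.one_mulVec]; rw [hYs]
      have h2 : ∏ v ∈ plc S, ∏ σ : M ≃ₐ[ℚ] M, ∏ i, P.nv v (σ ((L v σ).mulVec (Y j) i))
          = (∏ v ∈ plc S, ∏ σ : M ≃ₐ[ℚ] M, P.nv v (σ ((L v σ).mulVec (Y j) 0)))
            * ∏ i, ∏ v ∈ plc S, ∏ σ : M ≃ₐ[ℚ] M, P.nv v (σ (monM (w j) (ms i))) := by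
        rw [Finset.prod_congr rfl fun v hv => Finset.prod_congr rfl fun σ _ => h1 v hv σ]
        simp only [Finset.prod_mul_distrib]
        congr 1
        rw [Finset.prod_comm' (s := Finset.univ) (t := fun _ => plc S) (s' := fun _ => Finset.univ)
          (t' := plc S) (by simp)]
        exact Finset.prod_congr rfl fun v _ => Finset.prod_comm
      have h3 : ∏ i, ∏ v ∈ plc S, ∏ σ : M ≃ₐ[ℚ] M, P.nv v (σ (monM (w j) (ms i))) = 1 :=
        Finset.prod_eq_one fun i _ => (hPRK M S P hS).2.1 _ (hSVm j hjM i)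
      rw [h2, h3, mul_one]
      simp only [plc]
      rw [Finset.prod_insertNone]
      have h4 : ∏ p ∈ S, ∏ σ : M ≃ₐ[ℚ] M, P.nv (some p) (σ ((L (some p) σ).mulVec (Y j) 0)) ≤ 1 := by
        refine Finset.prod_le_one (fun p _ => Finset.prod_nonneg fun σ _ => P.nn _ _) fun p hp => ?_
        refine Finset.prod_le_one (fun σ _ => P.nn _ _) fun σ _ => ?_
        simp only [hL, reduceCtorEq, if_false, Matrix.one_mulVec]
        rw [hY0, map_intCast, P.intCast (mem_some hp)]
        exact hle1 p hp (z j)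
      have h5 : ∏ σ : M ≃ₐ[ℚ] M, P.nv none (σ ((L none σ).mulVec (Y j) 0)) ≤ H j ^ (-η) := by
        have h6 : ∀ σ : M ≃ₐ[ℚ] M, P.nv none (σ ((L none σ).mulVec (Y j) 0)) ≤ H j ^ (-η) := by
          intro σ
          simp only [hL, if_true]
          have h7 : (Ark (fun i => (F (rep σ)).coeff (ms i))).mulVec (Y j) 0
              = (z j : M) - evM (w j) (F (rep σ)) := by
            rw [Ark_zero, hY0, hev]
            congr 1
          rw [h7, ← hrep1]
          exact hzF (rep σ)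
        have h8 : ∏ σ : M ≃ₐ[ℚ] M, P.nv none (σ ((L none σ).mulVec (Y j) 0))
            ≤ ∏ _σ : M ≃ₐ[ℚ] M, H j ^ (-η) :=
          Finset.prod_le_prod (fun σ _ => P.nn _ _) fun σ _ => h6 σ
        refine h8.trans ?_
        rw [Finset.prod_const, Finset.card_univ]
        have h9 : H j ^ (-η) ≤ 1 := Real.rpow_le_one_of_one_le_of_nonpos hH1 (by linarith)
        exact pow_le_of_le_one (by positivity) h9 hcardG.ne'
      calc (∏ σ : M ≃ₐ[ℚ] M, P.nv none (σ ((L none σ).mulVec (Y j) 0)))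
            * ∏ p ∈ S, ∏ σ : M ≃ₐ[ℚ] M, P.nv (some p) (σ ((L (some p) σ).mulVec (Y j) 0))
          ≤ H j ^ (-η) * 1 := mul_le_mul h5 h4
            (Finset.prod_nonneg fun p _ => Finset.prod_nonneg fun σ _ => P.nn _ _) (by positivity)
        _ = H j ^ (-η) := mul_one _
  obtain ⟨u, hu, hui⟩ := hres
  have hrel : ∀ j, ∑ k, u k * Y j k = 0 →
      u 0 * (z j : M) + ∑ i : Fin s.card, u i.succ * monM (w j) (ms i) = 0 := by
    intro j h0
    rw [Fin.sum_univ_succ] at h0
    exact h0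
  by_cases hu0 : u 0 = 0
  · -- a relation between the monomials
    exfalso
    obtain ⟨ks, kinj, kmem, ksum⟩ := ex_enumM M
      (Finset.univ.filter fun i : Fin s.card => u i.succ ≠ 0)
    have hku : ∀ i, u (ks i).succ ≠ 0 := fun i => (Finset.mem_filter.mp (kmem i)).2
    have hex : (Finset.univ.filter fun i : Fin s.card => u i.succ ≠ 0).Nonempty := by
      by_contra hcon
      rw [Finset.not_nonempty_iff_eq_empty] at hcon
      apply hu
      funext i
      refine Fin.cases hu0 (fun i' => ?_) i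
      by_contra h
      have : i' ∈ Finset.univ.filter fun i : Fin s.card => u i.succ ≠ 0 :=
        Finset.mem_filter.mpr ⟨Finset.mem_univ _, h⟩
      rw [hcon] at this
      exact absurd this (Finset.notMem_empty _)
    have hz0 : ∀ j ∈ {j | j ∈ M2 ∧ ∑ k, u k * Y j k = 0},
        ∑ i, u (ks i).succ * monM (w j) (ms (ks i)) = 0 := by
      rintro j ⟨hjM, h0⟩
      have h1 := hrel j h0
      rw [hu0, zero_mul, zero_add] at h1
      rw [← ksum fun i => u i.succ * monM (w j) (ms i)]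
      refine Eq.trans (Finset.sum_subset (Finset.filter_subset _ _) fun i _ hi => ?_) h1
      have h4 : u i.succ = 0 := by
        by_contra h; exact hi (Finset.mem_filter.mpr ⟨Finset.mem_univ _, h⟩)
      rw [h4, zero_mul]
    obtain ⟨i, i', M', ρ, hii, hM'1, hM'i, hρ⟩ := hRELK M S _
      (fun i => u (ks i).succ) {j | j ∈ M2 ∧ ∑ k, u k * Y j k = 0}
      (fun j i => monM (w j) (ms (ks i))) hS ⟨⟨0, Finset.card_pos.mpr hex⟩⟩ hku hui
      (fun j h i => hSVm j (hM21 h.1) (ks i)) hz0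
    have hl : ms (ks i) - ms (ks i') ≠ 0 := by
      intro h
      exact hii (kinj (hinj (sub_eq_zero.mp h)))
    apply hM'i
    refine (hind.2 (ms (ks i) - ms (ks i')) ρ hl).subset ?_
    intro j hjM'
    have hjM := hM21 (hM'1 hjM').1
    refine ⟨hjM, ?_⟩
    obtain ⟨hmon, -⟩ := (hLAUBM M r).1 (w j) (hw0 j hjM)
    have h2 := hρ j hjM'
    have h5 : monM (w j) (ms (ks i))
        = monM (w j) (ms (ks i) - ms (ks i')) * monM (w j) (ms (ks i')) := by
      rw [← hmon, sub_add_cancel]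
    rw [h5] at h2
    exact mul_right_cancel₀ (monM_ne (w j) (ms (ks i')) (hw0 j hjM)) h2
  · refine ⟨{j | j ∈ M2 ∧ ∑ k, u k * Y j k = 0},
      ∑ i : Fin s.card, AddMonoidAlgebra.single (ms i) (-(u i.succ / u 0)),
      fun j h => hM21 h.1, hui, ?_⟩
    rintro j ⟨hjM, h0⟩
    obtain ⟨-, hsg, -⟩ := (hLAUBM M r).1 (w j) (hw0 j (hM21 hjM))
    rw [evM_sum hLAUBM (w j) (hw0 j (hM21 hjM))]
    have h1 := hrel j h0
    have h2 : ∑ i : Fin s.card, evM (w j) (AddMonoidAlgebra.single (ms i) (-(u i.succ / u 0)))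
        = -((∑ i : Fin s.card, u i.succ * monM (w j) (ms i)) / u 0) := by
      rw [Finset.sum_div, ← Finset.sum_neg_distrib]
      refine Finset.sum_congr rfl fun i _ => ?_
      rw [hsg]; ring
    rw [h2]
    field_simp
    linear_combination h1

end Pool.Agent.Helper60.SUBK
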